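import Mathlib

/-!
# Alternate row and column scaling never stops after exactly `L ≥ 3` scalings

If the alternate scaling sequence of a positive square matrix reaches a doubly stochastic matrix,
it does so after at most two matrix-changing scalings.
-/

set_option autoImplicit false

open Finset

namespace Pool.Agent.Results.MP_407c22_co.AtMostTwoScalings

/-- The row scaling: row `i` is divided by its sum. -/
noncomputable def rowScale {n : ℕ} (A : Matrix (Fin n) (Fin n) ℝ) : Matrix (Fin n) (Fin n) ℝ :=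
  fun i j => A i j / ∑ l, A i l

/-- The column scaling: column `j` is divided by its sum. -/
noncomputable def colScale {n : ℕ} (A : Matrix (Fin n) (Fin n) ℝ) : Matrix (Fin n) (Fin n) ℝ :=
  fun i j => A i j / ∑ l, A l j

/-- The alternate scaling sequence `A_0 = A`, `A_{2k+1} = R(A_{2k})`, `A_{2k+2} = C(A_{2k+1})`. -/
noncomputable def scaleSeq {n : ℕ} (A : Matrix (Fin n) (Fin n) ℝ) :
    ℕ → Matrix (Fin n) (Fin n) ℝ
  | 0 => A
  | k + 1 => if Even k then rowScale (scaleSeq A k) else colScale (scaleSeq A k)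

/-- Every row sum is `1` and every column sum is `1`. -/
def DoublyStochastic {n : ℕ} (A : Matrix (Fin n) (Fin n) ℝ) : Prop :=
  (∀ i, ∑ j, A i j = 1) ∧ ∀ j, ∑ i, A i j = 1

/-- `A` requires exactly `L` scalings: `N` is the least index with `A_N` doubly stochastic, and
`L` is the number of indices `k` with `1 ≤ k ≤ N` and `A_k ≠ A_{k-1}`. -/
def RequiresExactly {n : ℕ} (A : Matrix (Fin n) (Fin n) ℝ) (L : ℕ) : Prop :=
  ∃ N : ℕ, DoublyStochastic (scaleSeq A N) ∧ (∀ k < N, ¬ DoublyStochastic (scaleSeq A k)) ∧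
    {k : ℕ | 1 ≤ k ∧ k ≤ N ∧ scaleSeq A k ≠ scaleSeq A (k - 1)}.ncard = L

section aux

variable {n : ℕ}

lemma row_pos {A : Matrix (Fin n) (Fin n) ℝ} (hA : ∀ i j, 0 < A i j) (i : Fin n) :
    0 < ∑ j, A i j :=
  Finset.sum_pos (fun j _ => hA i j) ⟨i, Finset.mem_univ i⟩

lemma col_pos {A : Matrix (Fin n) (Fin n) ℝ} (hA : ∀ i j, 0 < A i j) (j : Fin n) :
    0 < ∑ i, A i j :=
  Finset.sum_pos (fun i _ => hA i j) ⟨j, Finset.mem_univ j⟩

lemma rowScale_pos {A : Matrix (Fin n) (Fin n) ℝ} (hA : ∀ i j, 0 < A i j) (i j : Fin n) :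
    0 < rowScale A i j := div_pos (hA i j) (row_pos hA i)

lemma colScale_pos {A : Matrix (Fin n) (Fin n) ℝ} (hA : ∀ i j, 0 < A i j) (i j : Fin n) :
    0 < colScale A i j := div_pos (hA i j) (col_pos hA j)

lemma rowScale_sum {A : Matrix (Fin n) (Fin n) ℝ} (hA : ∀ i j, 0 < A i j) (i : Fin n) :
    ∑ j, rowScale A i j = 1 := by
  unfold rowScale
  rw [← Finset.sum_div]
  exact div_self (row_pos hA i).ne'

lemma colScale_sum {A : Matrix (Fin n) (Fin n) ℝ} (hA : ∀ i j, 0 < A i j) (j : Fin n) :
    ∑ i, colScale A i j = 1 := by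
  unfold colScale
  rw [← Finset.sum_div]
  exact div_self (col_pos hA j).ne'

lemma scaleSeq_pos {A : Matrix (Fin n) (Fin n) ℝ} (hA : ∀ i j, 0 < A i j) (k : ℕ) :
    ∀ i j, 0 < scaleSeq A k i j := by
  induction k with
  | zero => exact hA
  | succ k ih =>
    intro i j
    rw [scaleSeq]
    split_ifs
    · exact rowScale_pos ih i j
    · exact colScale_pos ih i j

/-- The key step: column stochastic, then row scaling, then column scaling. -/
lemma key {B : Matrix (Fin n) (Fin n) ℝ} (hB : ∀ i j, 0 < B i j) (hc : ∀ j, ∑ i, B i j = 1)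
    (hD : ∀ i, ∑ j, colScale (rowScale B) i j = 1) : DoublyStochastic (rowScale B) := by
  set A := rowScale B with hAdef
  have hA : ∀ i j, 0 < A i j := rowScale_pos hB
  set r : Fin n → ℝ := fun i => ∑ j, B i j with hr
  set c : Fin n → ℝ := fun j => ∑ i, A i j with hcdef
  have hrpos : ∀ i, 0 < r i := row_pos hB
  have hcpos : ∀ j, 0 < c j := col_pos hA
  have hBA : ∀ i j, r i * A i j = B i j := by
    intro i j
    simp only [hAdef, rowScale, hr]
    field_simp [(row_pos hB i).ne']
  have h1 : ∑ i, r i * (∑ j, A i j / c j) = ∑ j, 1 / c j := by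
    calc ∑ i, r i * (∑ j, A i j / c j) = ∑ i, ∑ j, B i j / c j := by
          refine Finset.sum_congr rfl fun i _ => ?_
          rw [Finset.mul_sum]
          refine Finset.sum_congr rfl fun j _ => ?_
          rw [← mul_div_assoc, hBA]
      _ = ∑ j, ∑ i, B i j / c j := Finset.sum_comm
      _ = ∑ j, 1 / c j := by
          refine Finset.sum_congr rfl fun j _ => ?_
          rw [← Finset.sum_div, hc]
  have h2 : ∀ i, ∑ j, A i j / c j = 1 := hD
  have h3 : ∑ i, r i = n := by
    simp only [hr]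
    rw [Finset.sum_comm]
    simp [hc]
  have h4 : ∑ j, 1 / c j = n := by
    rw [← h1, ← h3]
    exact Finset.sum_congr rfl fun i _ => by rw [h2, mul_one]
  have h5 : ∑ j, c j = n := by
    simp only [hcdef]
    rw [Finset.sum_comm]
    simp [hAdef, rowScale_sum hB]
  have h6 : ∑ j, (c j - 1) ^ 2 / c j = 0 := by
    have : ∀ j, (c j - 1) ^ 2 / c j = c j + 1 / c j - 2 := by
      intro j
      have := (hcpos j).ne'
      field_simp
      ring
    rw [Finset.sum_congr rfl fun j _ => this j, Finset.sum_sub_distrib, Finset.sum_add_distrib, h4,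
      h5]
    simp
    ring
  have h7 : ∀ j, c j = 1 := by
    intro j
    have h8 := (Finset.sum_eq_zero_iff_of_nonneg
      (fun j _ => div_nonneg (sq_nonneg _) (hcpos j).le)).1 h6 j (Finset.mem_univ j)
    have h9 : (c j - 1) ^ 2 = 0 := by
      rcases div_eq_zero_iff.1 h8 with h | h
      · exact h
      · exact absurd h (hcpos j).ne'
    have : c j - 1 = 0 := by simpa using h9
    linarith
  exact ⟨fun i => rowScale_sum hB i, h7⟩

lemma rowScale_transpose (A : Matrix (Fin n) (Fin n) ℝ) :
    rowScale A.transpose = (colScale A).transpose := rfl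

lemma colScale_transpose (A : Matrix (Fin n) (Fin n) ℝ) :
    colScale A.transpose = (rowScale A).transpose := rfl

lemma ds_transpose {A : Matrix (Fin n) (Fin n) ℝ} (h : DoublyStochastic A.transpose) :
    DoublyStochastic A := ⟨h.2, h.1⟩

/-- The same with the roles of rows and columns exchanged. -/
lemma key' {B : Matrix (Fin n) (Fin n) ℝ} (hB : ∀ i j, 0 < B i j) (hc : ∀ i, ∑ j, B i j = 1)
    (hD : ∀ j, ∑ i, rowScale (colScale B) i j = 1) : DoublyStochastic (colScale B) := by
  apply ds_transpose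
  rw [← rowScale_transpose]
  refine key (B := B.transpose) (fun i j => hB j i) (fun j => hc j) fun i => ?_
  rw [rowScale_transpose, colScale_transpose]
  exact hD i

lemma no_three {A : Matrix (Fin n) (Fin n) ℝ} (hA : ∀ i j, 0 < A i j) (m : ℕ)
    (hN : DoublyStochastic (scaleSeq A (m + 3))) : DoublyStochastic (scaleSeq A (m + 2)) := by
  have hpos := scaleSeq_pos hA
  rcases Nat.even_or_odd m with hm | hm
  · -- `A_{m+1}` is a row scaling, `A_{m+2}` a column scaling, `A_{m+3}` a row scaling
    have e1 : scaleSeq A (m + 1) = rowScale (scaleSeq A m) := by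
      rw [scaleSeq, if_pos hm]
    have e2 : scaleSeq A (m + 2) = colScale (scaleSeq A (m + 1)) := by
      rw [scaleSeq, if_neg (by simpa using hm.add_one)]
    have e3 : scaleSeq A (m + 3) = rowScale (scaleSeq A (m + 2)) := by
      rw [scaleSeq, if_pos (by obtain ⟨a, ha⟩ := hm; exact ⟨a + 1, by omega⟩)]
    rw [e2]
    refine key' (hpos (m + 1)) (fun i => ?_) fun j => ?_
    · rw [e1]; exact rowScale_sum (hpos m) i
    · rw [← e2, ← e3]; exact hN.2 j
  · have e1 : scaleSeq A (m + 1) = colScale (scaleSeq A m) := by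
      rw [scaleSeq, if_neg (by simpa using hm)]
    have e2 : scaleSeq A (m + 2) = rowScale (scaleSeq A (m + 1)) := by
      rw [scaleSeq, if_pos hm.add_one]
    have e3 : scaleSeq A (m + 3) = colScale (scaleSeq A (m + 2)) := by
      rw [scaleSeq, if_neg (by rw [Nat.not_even_iff_odd]; obtain ⟨a, ha⟩ := hm; exact ⟨a + 1, by omega⟩)]
    rw [e2]
    refine key (hpos (m + 1)) (fun i => ?_) fun j => ?_
    · rw [e1]; exact colScale_sum (hpos m) i
    · rw [← e2, ← e3]; exact hN.1 j

end aux

/-- For no `n` and no `L ≥ 3` is there a positive `n × n` matrix that requires exactly `L`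
alternating scalings. -/
theorem result (n L : ℕ) (hL : 3 ≤ L) (A : Matrix (Fin n) (Fin n) ℝ) (hA : ∀ i j, 0 < A i j) :
    ¬ RequiresExactly A L := by
  rintro ⟨N, hN, hmin, hcard⟩
  have hsub : {k : ℕ | 1 ≤ k ∧ k ≤ N ∧ scaleSeq A k ≠ scaleSeq A (k - 1)} ⊆
      (Finset.Icc 1 N : Finset ℕ) := by
    rintro k ⟨hk1, hk2, _⟩
    simp [hk1, hk2]
  have hle : L ≤ N := by
    rw [← hcard]
    refine (Set.ncard_le_ncard hsub (Finset.finite_toSet _)).trans ?_
    rw [Set.ncard_coe_finset]
    simp
  obtain ⟨m, rfl⟩ : ∃ m, N = m + 3 := ⟨N - 3, by omega⟩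
  exact hmin (m + 2) (by omega) (no_three hA m hN)

end Pool.Agent.Results.MP_407c22_co.AtMostTwoScalings
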